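import Pool.Agent.W344.LocalLat

set_option autoImplicit false

/-! The lattice consisting of a least element, a greatest element and an antichain of cardinality
of the continuum embeds into the lattice of locally closed permutation groups on a countably
infinite set. -/

universe u v

namespace Pool.Agent.Results.MP_626926_al.GroupEmbedding

open Pool.Agent.W344.LocalLat

/-- Let `X` be a countably infinite set and let `M` be a lattice with least element `⊥` and greatest
element `⊤` such that the elements other than `⊥` and `⊤` form an antichain of cardinality `2^ℵ₀`.
Then there is an injective lattice homomorphism of `M` into the lattice of the permutation groups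
on `X` that are closed in `Sym(X)`. -/
theorem result (X : Type u) [Countable X] [Infinite X] (M : Type v) [Lattice M] [BoundedOrder M]
    (hanti : IsAntichain (· ≤ ·) {a : M | a ≠ ⊥ ∧ a ≠ ⊤})
    (hcard : Cardinal.mk {a : M // a ≠ ⊥ ∧ a ≠ ⊤} = Cardinal.continuum) :
    ∃ f : LatticeHom M (LocalGroup X), Function.Injective f := by
  refine embeds_group X (fun a b ha hb hab => ?_) hcard
  by_contra hne
  have ha' : a ≠ ⊤ := by
    rintro rfl
    exact hb (top_le_iff.1 hab)
  have hb' : b ≠ ⊥ := by
    rintro rfl
    exact ha (le_bot_iff.1 hab)
  exact hanti ⟨ha, ha'⟩ ⟨hb', hb⟩ hne hab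

end Pool.Agent.Results.MP_626926_al.GroupEmbedding
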